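import Mathlib

/-!
# Random `q`-partite blocks (MP_349e33_co)

The vertices are `Fin N`; there are `M` blocks, `e j : Fin q × Fin s → Fin N` (`j : Fin M`), chosen
independently and uniformly among all maps. Inside a block two vertices in different parts (first
coordinates) are joined. After deleting the few vertices of large degree and the few blocks which
lie in short cycles one gets graphs of maximum degree `Δ` in which every small subgraph is
`q`-colourable, of chromatic number larger than `Δ / log Δ` times a constant depending on `q`.
-/

set_option autoImplicit false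

namespace Pool.Agent.H217.CF

open Finset

/-- positions of a block: `q` parts of size `s` -/
abbrev X (q s : ℕ) := Fin q × Fin s

/-- `ψ` uses each colour `some a` in at most one part (`none` is a joker) -/
def Proper {k q s : ℕ} (ψ : X q s → Option (Fin k)) : Prop :=
  ∀ x x' : X q s, x.1 ≠ x'.1 → ∀ a : Fin k, ψ x = some a → ψ x' ≠ some a

open Classical in
/-- weighted number of the proper `ψ` -/
noncomputable def W (k q s : ℕ) (p : Option (Fin k) → ℝ) : ℝ :=
  ∑ ψ : X q s → Option (Fin k), if Proper ψ then ∏ x, p (ψ x) else 0

/-- number of positions of the block `g` which are occupied by elements of `U` -/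
def hits {q s N : ℕ} (g : X q s → Fin N) (U : Finset (Fin N)) : ℕ :=
  (univ.filter (fun x => g x ∈ U)).card

/-- `∑_j (hits - 1)`, natural subtraction -/
def T {q s N M : ℕ} (e : Fin M → X q s → Fin N) (U : Finset (Fin N)) : ℕ :=
  ∑ j, (hits (e j) U - 1)

/-- number of pairs (block, position) at `v` -/
def dg {q s N M : ℕ} (e : Fin M → X q s → Fin N) (v : Fin N) : ℕ :=
  ∑ j, (univ.filter (fun x => e j x = v)).card

/-- the sets with too many hits -/
def bad {q s N M : ℕ} (f : ℕ) (e : Fin M → X q s → Fin N) : Finset (Finset (Fin N)) :=
  univ.filter (fun U => U.Nonempty ∧ U.card ≤ f ∧ U.card ≤ T e U)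

/-- the exponent -/
noncomputable def mm (q : ℕ) (α y : ℝ) : ℝ :=
  α * (1 + Real.log y - Real.log α) - Real.log (1 + q * (Real.exp (y / q) - 1))

end Pool.Agent.H217.CF
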