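import Pool.Agent.H217.CF.Spec

set_option autoImplicit false

namespace Pool.Agent.H217.CF

open Finset

/-- the graph: blocks outside `R`, vertices with `dg ≤ D` -/
def gr {q s N M : ℕ} (e : Fin M → X q s → Fin N) (D : ℕ) (R : Finset (Fin M)) :
    SimpleGraph (Fin N) where
  Adj v w := v ≠ w ∧ dg e v ≤ D ∧ dg e w ≤ D ∧
    ∃ j, j ∉ R ∧ ∃ x x' : X q s, x.1 ≠ x'.1 ∧ e j x = v ∧ e j x' = w
  symm := ⟨fun _ _ ⟨h1, h2, h3, j, hj, x, x', h4, h5, h6⟩ =>
    ⟨h1.symm, h3, h2, j, hj, x', x, h4.symm, h6, h5⟩⟩
  loopless := ⟨fun _ h => h.1 rfl⟩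

/-- blocks to be removed -/
def RR {q s N M : ℕ} (f : ℕ) (e : Fin M → X q s → Fin N) : Finset (Fin M) :=
  (bad f e).biUnion (fun U => univ.filter (fun j => 2 ≤ hits (e j) U))

theorem card_RR {q s N M : ℕ} (f : ℕ) (e : Fin M → X q s → Fin N) :
    (RR f e).card ≤ ∑ U ∈ bad f e, T e U := by
  classical
  refine Finset.card_biUnion_le.trans (Finset.sum_le_sum fun U _ => ?_)
  rw [T, Finset.card_filter]
  refine Finset.sum_le_sum fun j _ => ?_
  split_ifs with h <;> omega

theorem degree_gr {q s N M : ℕ} (e : Fin M → X q s → Fin N) (D : ℕ) (R : Finset (Fin M))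
    (v : Fin N) : (Set.toFinite ((gr e D R).neighborSet v)).toFinset.card ≤ D * (s * (q - 1)) := by
  classical
  by_cases hv : dg e v ≤ D
  · have hsub : (Set.toFinite ((gr e D R).neighborSet v)).toFinset ⊆
        (univ.filter (fun t : Fin M × X q s × X q s => e t.1 t.2.1 = v ∧ t.2.1.1 ≠ t.2.2.1)).image
          (fun t => e t.1 t.2.2) := by
      intro w hw
      rw [Set.Finite.mem_toFinset, SimpleGraph.mem_neighborSet] at hw
      obtain ⟨-, -, -, j, -, x, x', h4, h5, h6⟩ := hw
      refine Finset.mem_image.2 ⟨(j, x, x'), ?_, h6⟩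
      simp only [mem_filter, mem_univ, true_and]
      exact ⟨h5, h4⟩
    refine (Finset.card_le_card hsub).trans (Finset.card_image_le.trans ?_)
    have h1 : (univ.filter (fun t : Fin M × X q s × X q s =>
        e t.1 t.2.1 = v ∧ t.2.1.1 ≠ t.2.2.1)).card = ∑ j : Fin M, ∑ x : X q s,
          if e j x = v then (univ.filter (fun x' : X q s => x.1 ≠ x'.1)).card else 0 := by
      rw [Finset.card_filter, Fintype.sum_prod_type]
      refine Finset.sum_congr rfl fun j _ => ?_
      rw [Fintype.sum_prod_type]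
      refine Finset.sum_congr rfl fun x _ => ?_
      by_cases h : e j x = v
      · simp [h, Finset.card_filter]
      · simp [h]
    rw [h1]
    have h2 : ∀ x : X q s, (univ.filter (fun x' : X q s => x.1 ≠ x'.1)).card = s * (q - 1) := by
      intro x
      have : (univ.filter (fun x' : X q s => x.1 ≠ x'.1)) = (univ.erase x.1) ×ˢ univ := by
        ext x'
        simp only [mem_filter, mem_univ, true_and, mem_product, mem_erase, and_true]
        exact ⟨fun h => h.symm, fun h => h.symm⟩
      rw [this, Finset.card_product, Finset.card_erase_of_mem (mem_univ _)]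
      simp [mul_comm]
    have h3 : ∑ j : Fin M, ∑ x : X q s,
          (if e j x = v then (univ.filter (fun x' : X q s => x.1 ≠ x'.1)).card else 0) =
        dg e v * (s * (q - 1)) := by
      rw [dg, Finset.sum_mul]
      refine Finset.sum_congr rfl fun j _ => ?_
      rw [Finset.card_filter, Finset.sum_mul]
      refine Finset.sum_congr rfl fun x _ => ?_
      rw [h2 x]
      split_ifs <;> simp
    rw [h3]
    exact Nat.mul_le_mul_right _ hv
  · have : (Set.toFinite ((gr e D R).neighborSet v)).toFinset = ∅ := by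
      rw [Finset.eq_empty_iff_forall_notMem]
      intro w hw
      rw [Set.Finite.mem_toFinset, SimpleGraph.mem_neighborSet] at hw
      exact hv hw.2.1
    rw [this]; simp

open Classical in
/-- the count of the maps which make a given colouring proper -/
theorem count_le (hW : S_wbound) (hJ : S_jensen) (hC : S_count) {k q s N : ℕ} (hk : 0 < k)
    (hN : 0 < N) {z η ω : ℝ} (hz : 0 < z)
    (hω : ((s.factorial : ℝ) / z ^ s) ^ q * Real.exp (q * η * z) *
        (1 + q * (Real.exp (z / k) - 1)) ^ k ≤ ω)
    (φ : Fin N → Option (Fin k))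
    (hφ : ((univ.filter (fun v => φ v = none)).card : ℝ) ≤ η * N) :
    (((univ.filter (fun g : X q s → Fin N => Proper (fun x => φ (g x)))).card : ℕ) : ℝ) ≤
        ω * (N : ℝ) ^ (q * s) := by
  have hN' : (0 : ℝ) < N := by exact_mod_cast hN
  have h := hC k q s N hN φ
  set p : Option (Fin k) → ℝ := fun o => ((univ.filter (fun v => φ v = o)).card : ℝ) / N with hp
  have hp0 : ∀ o, 0 ≤ p o := fun o => by positivity
  have hsum : ∑ a : Fin k, p (some a) ≤ 1 := by
    have h1 : ∑ o : Option (Fin k), p o = 1 := by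
      simp only [hp]
      rw [← Finset.sum_div]
      rw [div_eq_one_iff_eq hN'.ne']
      have : ∑ o : Option (Fin k), (univ.filter (fun v => φ v = o)).card = N := by
        have := Finset.card_eq_sum_card_fiberwise (f := φ) (s := (univ : Finset (Fin N)))
          (t := (univ : Finset (Option (Fin k)))) (fun _ _ => mem_univ _)
        rw [← this]; simp
      exact_mod_cast this
    rw [Fintype.sum_option] at h1
    linarith [hp0 none]
  have hpn : p none ≤ η := by
    simp only [hp]
    rw [div_le_iff₀ hN']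
    exact hφ
  have hb := hW k q s p hp0 z hz
  have hj := hJ k q hk (fun a => p (some a)) (fun a => hp0 _) hsum z hz
  have hf : 0 ≤ ((s.factorial : ℝ) / z ^ s) ^ q := by positivity
  have hprod0 : 0 ≤ ∏ a : Fin k, (1 + q * (Real.exp (p (some a) * z) - 1)) := by
    refine Finset.prod_nonneg fun a _ => ?_
    have : 1 ≤ Real.exp (p (some a) * z) := Real.one_le_exp (mul_nonneg (hp0 _) hz.le)
    have : 0 ≤ (q : ℝ) * (Real.exp (p (some a) * z) - 1) :=
      mul_nonneg (Nat.cast_nonneg _) (by linarith)
    linarith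
  have hWω : W k q s p ≤ ω := by
    refine hb.trans (le_trans ?_ hω)
    refine mul_le_mul (mul_le_mul_of_nonneg_left ?_ hf) hj hprod0 (by positivity)
    rw [Real.exp_le_exp]
    have : (q : ℝ) * p none ≤ q * η := mul_le_mul_of_nonneg_left hpn (Nat.cast_nonneg _)
    exact mul_le_mul_of_nonneg_right this hz.le
  have hg : (0 : ℝ) ≤ (N : ℝ) ^ (q * s) := by positivity
  have key : (N : ℝ) ^ (q * s) * W k q s p ≤ ω * (N : ℝ) ^ (q * s) := by
    rw [mul_comm]
    exact mul_le_mul_of_nonneg_right hWω hg
  rw [h]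
  exact key

end Pool.Agent.H217.CF
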