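import Pool.Agent.H217.CF.Exist

set_option autoImplicit false

namespace Pool.Agent.H217.CF

open Finset

theorem hits_le_one {q s N M f : ℕ} (hf : 1 ≤ f) {e : Fin M → X q s → Fin N} {j : Fin M}
    (hj : j ∉ RR f e) {x x' : X q s} (h : e j x = e j x') : x = x' := by
  classical
  by_contra hne
  apply hj
  have h2 : 2 ≤ hits (e j) {e j x} := by
    have : ({x, x'} : Finset (X q s)) ⊆ univ.filter (fun y => e j y ∈ ({e j x} : Finset (Fin N))) := by
      intro y hy
      simp only [mem_insert, mem_singleton] at hy
      simp only [mem_filter, mem_univ, true_and, mem_singleton]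
      rcases hy with rfl | rfl
      · rfl
      · exact h.symm
    calc 2 = ({x, x'} : Finset (X q s)).card := (Finset.card_pair hne).symm
      _ ≤ _ := Finset.card_le_card this
  refine Finset.mem_biUnion.2 ⟨{e j x}, ?_, ?_⟩
  · simp only [bad, mem_filter, mem_univ, true_and]
    refine ⟨Finset.singleton_nonempty _, by simpa using hf, ?_⟩
    rw [Finset.card_singleton, T]
    calc 1 ≤ hits (e j) {e j x} - 1 := by omega
      _ ≤ _ := Finset.single_le_sum (f := fun i => hits (e i) {e j x} - 1)
        (fun _ _ => Nat.zero_le _) (mem_univ j)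
  · exact Finset.mem_filter.2 ⟨mem_univ _, h2⟩

open Classical in
/-- the event -/
def Ev {q s N M : ℕ} (k C : ℕ) (η : ℝ) (e : Fin M → X q s → Fin N) : Prop :=
  ∃ φ : Fin N → Option (Fin k),
      ((univ.filter (fun v => φ v = none)).card : ℝ) ≤ η * N ∧
      ∃ R : Finset (Fin M), R.card ≤ C ∧ ∀ j, j ∉ R → Proper (fun x => φ (e j x))

theorem good_of_e (hL : S_local) {q s N M f k D C : ℕ} (hq : 0 < q) (hf : 1 ≤ f) {η : ℝ}
    (e : Fin M → X q s → Fin N)
    (h1 : ((univ.filter (fun v => D < dg e v)).card : ℝ) ≤ η * N)
    (h2 : ∑ U ∈ bad f e, T e U ≤ C) (h3 : ¬ Ev k C η e) :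
    ¬ (gr e D (RR f e)).Colorable k ∧
    ∀ n : ℕ, n ≤ f → ∀ F : SimpleGraph (Fin n), Nonempty (F →g gr e D (RR f e)) →
      F.Colorable q := by
  classical
  constructor
  · rintro ⟨c⟩
    apply h3
    refine ⟨fun v => if D < dg e v then none else some (c v), ?_, RR f e, (card_RR f e).trans h2, ?_⟩
    · have : (univ.filter (fun v : Fin N => (if D < dg e v then (none : Option (Fin k))
          else some (c v)) = none)) = univ.filter (fun v => D < dg e v) := by
        ext v
        simp only [mem_filter, mem_univ, true_and]
        split_ifs with h <;> simp [h]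
      rw [this]
      exact h1
    · intro j hj x x' hxx a ha ha'
      by_cases hv : D < dg e (e j x)
      · simp [hv] at ha
      by_cases hw : D < dg e (e j x')
      · simp [hw] at ha'
      simp only [hv, if_false, Option.some.injEq] at ha
      simp only [hw, if_false, Option.some.injEq] at ha'
      have hne : e j x ≠ e j x' := fun h => hxx (by rw [hits_le_one hf hj h])
      have hadj : (gr e D (RR f e)).Adj (e j x) (e j x') :=
        ⟨hne, not_lt.1 hv, not_lt.1 hw, j, hj, x, x', hxx, rfl, rfl⟩
      exact c.valid hadj (ha.trans ha'.symm)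
  · rintro n hn F ⟨g⟩
    have := hL (Fin M) (Fin N) (X q s) q hq Prod.fst (univ \ RR f e) e f ?_
      (univ.image g) ((Finset.card_image_le).trans (by simpa using hn))
    · obtain ⟨col, hcol⟩ := this
      refine ⟨SimpleGraph.Coloring.mk (fun v => col (g v)) ?_⟩
      intro a b hab
      obtain ⟨-, -, -, j, hj, x, x', hxx, hx, hx'⟩ := g.map_adj hab
      have := hcol j (by simpa using hj) x x'
        (by rw [hx]; exact mem_image_of_mem _ (mem_univ _))
        (by rw [hx']; exact mem_image_of_mem _ (mem_univ _)) hxx
      rw [hx, hx'] at this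
      exact this
    · intro U hU hUf
      by_cases hb : U ∈ bad f e
      · have : ∑ j ∈ univ \ RR f e, ((univ.filter (fun x => e j x ∈ U)).card - 1) = 0 := by
          refine Finset.sum_eq_zero fun j hj => ?_
          have hj' : j ∉ RR f e := by simpa using hj
          by_contra hh
          apply hj'
          refine Finset.mem_biUnion.2 ⟨U, hb, ?_⟩
          refine Finset.mem_filter.2 ⟨mem_univ _, ?_⟩
          unfold hits
          omega
        rw [this]
        exact hU.card_pos
      · simp only [bad, mem_filter, mem_univ, true_and, not_and, not_le] at hb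
        refine lt_of_le_of_lt ?_ (hb hU hUf)
        rw [T]
        exact Finset.sum_le_sum_of_subset (Finset.subset_univ _)

end Pool.Agent.H217.CF
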