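import Pool.Agent.H217.CF.Exist2

set_option autoImplicit false

namespace Pool.Agent.H217.CF

open Finset Filter Topology

theorem small_N {k : ℕ} {l d ω : ℝ} (hl : 0 < l) (hd : 0 < d) (hω0 : 0 < ω) (hω1 : ω < 1)
    (h2 : Real.log (k + 1) + d / l * Real.log ω < 0) (C₂ : ℕ) :
    ∃ N₀ : ℕ, ∀ N : ℕ, N₀ ≤ N → 1 ≤ N →
      ((k : ℝ) + 1) ^ N * ((⌈d * N / l⌉₊ : ℝ) + 1) ^ C₂ * ω ^ (⌈d * N / l⌉₊ - C₂) < 1 / 4 := by
  have hk : (0 : ℝ) < (k : ℝ) + 1 := by positivity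
  set r : ℝ := ((k : ℝ) + 1) * ω ^ (d / l) with hr
  have hr0 : 0 < r := mul_pos hk (Real.rpow_pos_of_pos hω0 _)
  have hr1 : r < 1 := by
    rw [← Real.log_neg_iff hr0, hr, Real.log_mul hk.ne' (Real.rpow_pos_of_pos hω0 _).ne',
      Real.log_rpow hω0]
    exact h2
  have hdl : 0 < d / l := div_pos hd hl
  set K : ℝ := ω ^ C₂ / (4 * (d / l + 2) ^ C₂) with hK
  have hKpos : 0 < K := by positivity
  have ht := tendsto_pow_const_mul_const_pow_of_lt_one C₂ hr0.le hr1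
  have hev := (ht.eventually (gt_mem_nhds hKpos))
  obtain ⟨N₀, hN₀⟩ := eventually_atTop.1 hev
  refine ⟨N₀, fun N hN hN1 => ?_⟩
  have h := hN₀ N hN
  have hN' : (1 : ℝ) ≤ N := by exact_mod_cast hN1
  set M := ⌈d * N / l⌉₊ with hM
  have hMge : d * N / l ≤ M := Nat.le_ceil _
  have hMlt : (M : ℝ) < d * N / l + 1 := Nat.ceil_lt_add_one (by positivity)
  have hω : ω ^ (M - C₂) * ω ^ C₂ ≤ (ω ^ (d / l)) ^ N := by
    rw [← pow_add]
    calc ω ^ (M - C₂ + C₂) ≤ ω ^ M := pow_le_pow_of_le_one hω0.le hω1.le (by omega)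
      _ = ω ^ (M : ℝ) := (Real.rpow_natCast _ _).symm
      _ ≤ ω ^ (d * N / l) := Real.rpow_le_rpow_of_exponent_ge hω0 hω1.le hMge
      _ = (ω ^ (d / l)) ^ N := by
        rw [← Real.rpow_natCast, ← Real.rpow_mul hω0.le]
        congr 1
        ring
  have hM1 : (M : ℝ) + 1 ≤ (d / l + 2) * N := by
    have : d * N / l = d / l * N := by ring
    nlinarith
  have hM2 : ((M : ℝ) + 1) ^ C₂ ≤ (d / l + 2) ^ C₂ * (N : ℝ) ^ C₂ := by
    rw [← mul_pow]
    exact pow_le_pow_left₀ (by positivity) hM1 _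
  have hωC : 0 < ω ^ C₂ := by positivity
  have h3 : ((k : ℝ) + 1) ^ N * ((M : ℝ) + 1) ^ C₂ * ω ^ (M - C₂) * ω ^ C₂ ≤
      (d / l + 2) ^ C₂ * ((N : ℝ) ^ C₂ * r ^ N) := by
    calc ((k : ℝ) + 1) ^ N * ((M : ℝ) + 1) ^ C₂ * ω ^ (M - C₂) * ω ^ C₂
        = ((k : ℝ) + 1) ^ N * ((M : ℝ) + 1) ^ C₂ * (ω ^ (M - C₂) * ω ^ C₂) := by ring
      _ ≤ ((k : ℝ) + 1) ^ N * ((d / l + 2) ^ C₂ * (N : ℝ) ^ C₂) * (ω ^ (d / l)) ^ N := by
        gcongr
      _ = (d / l + 2) ^ C₂ * ((N : ℝ) ^ C₂ * r ^ N) := by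
        rw [hr, mul_pow]; ring
  have h4 : (d / l + 2) ^ C₂ * ((N : ℝ) ^ C₂ * r ^ N) < ω ^ C₂ / 4 := by
    have : (d / l + 2) ^ C₂ * K = ω ^ C₂ / 4 := by
      rw [hK]; field_simp
    rw [← this]
    exact mul_lt_mul_of_pos_left h (by positivity)
  have h5 := lt_of_le_of_lt h3 h4
  by_contra hcon
  push Not at hcon
  have : 1 / 4 * ω ^ C₂ ≤ ((k : ℝ) + 1) ^ N * ((M : ℝ) + 1) ^ C₂ * ω ^ (M - C₂) * ω ^ C₂ :=
    mul_le_mul_of_nonneg_right hcon hωC.le
  linarith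

open Classical in
theorem ev_le (hE : S_event) {k q s N M C : ℕ} {η ω : ℝ} (h0 : 0 ≤ ω) (h1 : ω ≤ 1)
    (h : ∀ φ : Fin N → Option (Fin k), ((univ.filter (fun v => φ v = none)).card : ℝ) ≤ η * N →
      ((univ.filter (fun g : X q s → Fin N => Proper (fun x => φ (g x)))).card : ℝ) ≤
        ω * (N : ℝ) ^ (q * s)) :
    ((univ.filter (fun e : Fin M → X q s → Fin N => Ev k C η e)).card : ℝ) ≤
      ((k : ℝ) + 1) ^ N * ((M : ℝ) + 1) ^ C * ω ^ (M - C) * (N : ℝ) ^ (q * s * M) := by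
  refine le_trans (Nat.cast_le.2 (Finset.card_le_card fun e he => ?_)) (hE k q s N M C η ω h0 h1 h)
  rw [mem_filter] at he ⊢
  exact he

theorem pick {q s N M C₂ f D : ℕ} {η A : ℝ} (hη : 0 < η) (hN' : (0 : ℝ) < N) (hA : 0 < A)
    (hC₂1 : (1 : ℝ) ≤ C₂)
    (hcardΩ : (Fintype.card (Fin M → X q s → Fin N) : ℝ) = A)
    (hSle : ∑ e : Fin M → X q s → Fin N, ((univ.filter (fun v => D < dg e v)).card : ℝ) ≤
      N * (η / 8) * A)
    (hYle : ∑ e : Fin M → X q s → Fin N, ∑ U ∈ bad f e, (T e U : ℝ) ≤ C₂ / 8 * A)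
    (P : (Fin M → X q s → Fin N) → Prop) [DecidablePred P]
    (hEvle : ((univ.filter (fun e : Fin M → X q s → Fin N => P e)).card : ℝ) ≤
      1 / 4 * A) :
    ∃ e : Fin M → X q s → Fin N,
      ((univ.filter (fun v => D < dg e v)).card : ℝ) ≤ η * N ∧
      ∑ U ∈ bad f e, T e U ≤ C₂ ∧ ¬ P e := by
  by_contra hcon
  push Not at hcon
  have hpt : ∀ e : Fin M → X q s → Fin N, (1 : ℝ) ≤
      ((univ.filter (fun v => D < dg e v)).card : ℝ) / (η * N) +
      (∑ U ∈ bad f e, (T e U : ℝ)) / C₂ + (if P e then 1 else 0) := by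
    intro e
    have hηN : 0 < η * N := mul_pos hη hN'
    have a1 : 0 ≤ ((univ.filter (fun v => D < dg e v)).card : ℝ) / (η * N) := by positivity
    have a2 : 0 ≤ (∑ U ∈ bad f e, (T e U : ℝ)) / C₂ := by positivity
    have a3 : (0 : ℝ) ≤ (if P e then 1 else 0) := by split_ifs <;> norm_num
    by_cases b1 : ((univ.filter (fun v => D < dg e v)).card : ℝ) ≤ η * N
    · by_cases b2 : ∑ U ∈ bad f e, T e U ≤ C₂
      · rw [if_pos (hcon e b1 b2)]
        linarith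
      · have : (1 : ℝ) ≤ (∑ U ∈ bad f e, (T e U : ℝ)) / C₂ := by
          rw [le_div_iff₀ (by linarith), one_mul]
          push Not at b2
          have : (C₂ : ℝ) < ((∑ U ∈ bad f e, T e U : ℕ) : ℝ) := by exact_mod_cast b2
          push_cast at this
          exact this.le
        linarith
    · have : (1 : ℝ) ≤ ((univ.filter (fun v => D < dg e v)).card : ℝ) / (η * N) := by
        rw [le_div_iff₀ hηN, one_mul]
        exact (not_le.1 b1).le
      linarith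
  have hsum := Finset.sum_le_sum (fun e (_ : e ∈ (univ : Finset (Fin M → X q s → Fin N))) => hpt e)
  rw [Finset.sum_add_distrib, Finset.sum_add_distrib, ← Finset.sum_div, ← Finset.sum_div] at hsum
  rw [Finset.sum_const, Finset.card_univ, nsmul_eq_mul, mul_one, hcardΩ] at hsum
  have c3 : (∑ e : Fin M → X q s → Fin N, (if P e then (1 : ℝ) else 0)) =
      ((univ.filter (fun e : Fin M → X q s → Fin N => P e)).card : ℝ) := by
    rw [Finset.card_filter, Nat.cast_sum]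
    exact Finset.sum_congr rfl fun e _ => by split_ifs <;> simp
  rw [c3] at hsum
  have c1 : (∑ e : Fin M → X q s → Fin N, ((univ.filter (fun v => D < dg e v)).card : ℝ)) /
      (η * N) ≤ A / 8 := by
    rw [div_le_iff₀ (mul_pos hη hN')]
    linarith
  have c2 : (∑ e : Fin M → X q s → Fin N, ∑ U ∈ bad f e, (T e U : ℝ)) / C₂ ≤ A / 8 := by
    rw [div_le_iff₀ (by linarith)]
    linarith
  linarith

theorem exist (hL : S_local) (hW : S_wbound) (hJ : S_jensen) (hC : S_count) (hB : S_bad)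
    (hD : S_deg) (hE : S_event) {k q s f D : ℕ} (hk : 0 < k) (hq : 0 < q) (hs : 0 < s)
    (hf : 1 ≤ f) {z η ω d lam : ℝ} (hz : 0 < z) (hη : 0 < η) (hlam : 0 < lam) (hd : 0 < d)
    (hω0 : 0 < ω) (hω1 : ω < 1)
    (hω : ((s.factorial : ℝ) / z ^ s) ^ q * Real.exp (q * η * z) *
        (1 + q * (Real.exp (z / k) - 1)) ^ k ≤ ω)
    (h2 : Real.log (k + 1) + d / (q * s) * Real.log ω < 0)
    (h3 : Real.exp ((Real.exp lam - 1) * (d + 1) - lam * D) ≤ η / 8) :
    ∃ (N : ℕ) (G : SimpleGraph (Fin N)),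
      (∀ v : Fin N, (Set.toFinite (G.neighborSet v)).toFinset.card ≤ D * (s * (q - 1))) ∧
      ¬ G.Colorable k ∧
      ∀ n : ℕ, n ≤ f → ∀ F : SimpleGraph (Fin n), Nonempty (F →g G) → F.Colorable q := by
  classical
  obtain ⟨C, hC0, hCb⟩ := hB q s f
  have hl : (0 : ℝ) < (q : ℝ) * s := by positivity
  obtain ⟨C₂, hC₂⟩ := exists_nat_ge (max 1 (8 * (f * Real.exp (C * (d / (q * s) + 1)))))
  have hC₂1 : (1 : ℝ) ≤ C₂ := (le_max_left _ _).trans hC₂
  have hC₂2 : 8 * (f * Real.exp (C * (d / (q * s) + 1))) ≤ C₂ := (le_max_right _ _).trans hC₂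
  obtain ⟨N₀, hN₀⟩ := small_N (k := k) hl hd hω0 hω1 h2 C₂
  set N := max N₀ (q * s) with hNdef
  have hqs : 1 ≤ q * s := Nat.mul_pos hq hs
  have hNqs : q * s ≤ N := le_max_right _ _
  have hN1 : 1 ≤ N := hqs.trans hNqs
  have hsm := hN₀ N (le_max_left _ _) hN1
  have hN' : (0 : ℝ) < N := by exact_mod_cast hN1
  have hN'1 : (1 : ℝ) ≤ N := by exact_mod_cast hN1
  have hNqs' : (q : ℝ) * s ≤ N := by exact_mod_cast hNqs
  set M := ⌈d * N / (q * s)⌉₊ with hM
  have hMlt : (M : ℝ) < d * N / (q * s) + 1 := Nat.ceil_lt_add_one (by positivity)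
  set A : ℝ := (N : ℝ) ^ (q * s * M) with hA
  have hApos : 0 < A := by positivity
  have hcardΩ : (Fintype.card (Fin M → X q s → Fin N) : ℝ) = A := by
    simp only [Fintype.card_fun, Fintype.card_fin, Fintype.card_prod]
    rw [← pow_mul]
    push_cast
    rfl
  -- the three sums
  have hS := hD q s N M D hN1 lam hlam.le
  have hY := hCb N M hN1
  have hcount : ∀ φ : Fin N → Option (Fin k),
      ((univ.filter (fun v => φ v = none)).card : ℝ) ≤ η * N →
      ((univ.filter (fun g : X q s → Fin N => Proper (fun x => φ (g x)))).card : ℝ) ≤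
        ω * (N : ℝ) ^ (q * s) := fun φ hφ => count_le hW hJ hC hk hN1 hz hω φ hφ
  have hMN1 : (M : ℝ) * (q * s) / N ≤ d + 1 := by
    rw [div_le_iff₀ hN']
    have : (M : ℝ) * (q * s) ≤ (d * N / (q * s) + 1) * (q * s) :=
      mul_le_mul_of_nonneg_right hMlt.le hl.le
    have h' : (d * N / (q * s) + 1) * ((q : ℝ) * s) = d * N + q * s := by
      field_simp
    nlinarith
  have hMN2 : (M : ℝ) / N ≤ d / (q * s) + 1 := by
    rw [div_le_iff₀ hN']
    have : d * N / ((q : ℝ) * s) = d / (q * s) * N := by ring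
    nlinarith
  have hSle : ∑ e : Fin M → X q s → Fin N, ((univ.filter (fun v => D < dg e v)).card : ℝ) ≤
      N * (η / 8) * A := by
    refine hS.trans ?_
    have e1 : (0 : ℝ) ≤ Real.exp lam - 1 := by
      have := Real.one_le_exp hlam.le
      linarith
    have e2 : Real.exp (-(lam * D)) * Real.exp ((Real.exp lam - 1) * (M * (q * s) / N)) ≤ η / 8 := by
      rw [← Real.exp_add]
      refine le_trans (Real.exp_le_exp.2 ?_) h3
      have := mul_le_mul_of_nonneg_left hMN1 e1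
      linarith
    have e3 : (N : ℝ) * Real.exp (-(lam * D)) *
        Real.exp ((Real.exp lam - 1) * (M * (q * s) / N)) * (N : ℝ) ^ (q * s * M) =
        N * (Real.exp (-(lam * D)) * Real.exp ((Real.exp lam - 1) * (M * (q * s) / N))) * A := by
      rw [hA]; ring
    rw [e3]
    gcongr
  have hYle : ∑ e : Fin M → X q s → Fin N, ∑ U ∈ bad f e, (T e U : ℝ) ≤ C₂ / 8 * A := by
    refine hY.trans ?_
    have : (f : ℝ) * Real.exp (C * (M / N)) ≤ C₂ / 8 := by
      have : (f : ℝ) * Real.exp (C * (M / N)) ≤ f * Real.exp (C * (d / (q * s) + 1)) := by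
        gcongr
      linarith
    rw [hA]
    exact mul_le_mul_of_nonneg_right this (by positivity)
  have hEvle : ((univ.filter (fun e : Fin M → X q s → Fin N => Ev k C₂ η e)).card : ℝ) ≤
      1 / 4 * A := by
    refine (ev_le hE hω0.le hω1.le hcount).trans ?_
    rw [hA]
    exact mul_le_mul_of_nonneg_right hsm.le (by positivity)
  obtain ⟨e, he1, he2, he3⟩ := pick (f := f) (D := D) hη hN' hApos hC₂1 hcardΩ hSle hYle
    (fun e => Ev k C₂ η e) hEvle
  obtain ⟨g1, g2⟩ := good_of_e (k := k) hL hq hf e he1 he2 he3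
  exact ⟨N, gr e D (RR f e), degree_gr e D _, g1, g2⟩

end Pool.Agent.H217.CF
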