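import Pool.Agent.H217.CF.Exist3
import Pool.Agent.H233.CF.Local
import Pool.Agent.H337.CF.Surj
import Pool.Agent.H588.CF.Surj2
import Pool.Agent.H181.CF.JC
import Pool.Agent.H870.CF.Bad
import Pool.Agent.H52.CF.DegEvent
import Pool.Agent.H120.CF.Asym
import Pool.Agent.H707.CF.Num
import Pool.Agent.H278.CF.Final

/-!
# `F`-free graphs of large chromatic number (MP_349e33_co): the main theorem

Lemmas by helper233 (local structure), helper337, helper588, helper181 (counting colourings of a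
block), helper870 (short cycles), helper52 (degrees, union bound), helper120 (asymptotics),
helper707 (numbers), helper278 (from the number of colours to the maximum degree).
-/

set_option autoImplicit false

namespace Pool.Agent.H217.CF

open Finset

theorem good_of_mm {q : ℕ} (hq : 2 ≤ q) {α y δ : ℝ} (hα : 0 < α) (hy : 0 < y)
    (hm : 0 < mm q α y) (hδ : 0 < δ) (f : ℕ) :
    ∃ k₀ : ℕ, ∀ k : ℕ, k₀ ≤ k →
      Good q f k ((1 + δ) * (α ^ 2 * (1 - 1 / q) / mm q α y)) := by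
  obtain ⟨k₀, hk₀⟩ := Pool.Agent.H120.CF.asym q hq α y hα hy hm δ hδ
  refine ⟨max k₀ 1, fun k hk => ?_⟩
  obtain ⟨s, D, z, η, ω, d, lam, hs, hz, hη, hlam, hd, hω0, hω1, hω, h2, h3, h4⟩ :=
    hk₀ k ((le_max_left _ _).trans hk)
  have hk1 : 0 < k := lt_of_lt_of_le one_pos ((le_max_right _ _).trans hk)
  obtain ⟨N, G, g1, g2, g3⟩ := exist Pool.Agent.H233.CF.s_local
    (Pool.Agent.H588.CF.s_wbound (Pool.Agent.H588.CF.s_surj2 Pool.Agent.H337.CF.s_surj))
    Pool.Agent.H181.CF.s_jensen Pool.Agent.H181.CF.s_count Pool.Agent.H870.CF.s_bad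
    Pool.Agent.H52.CF.s_deg Pool.Agent.H52.CF.s_event (f := f + 1) (D := D) hk1
    (lt_of_lt_of_le two_pos hq) hs (Nat.succ_le_succ (Nat.zero_le _)) hz hη hlam hd hω0 hω1 hω h2 h3
  refine ⟨N, G, fun v => ?_, g2, fun n hn F hF => g3 n (by omega) F hF⟩
  have hc : ((D * (s * (q - 1)) : ℕ) : ℝ) = D * (s * (q - 1)) := by
    rw [Nat.cast_mul, Nat.cast_mul, Nat.cast_sub (by omega), Nat.cast_one]
  calc ((Set.toFinite (G.neighborSet v)).toFinset.card : ℝ) ≤ ((D * (s * (q - 1)) : ℕ) : ℝ) :=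
        Nat.cast_le.2 (g1 v)
    _ = D * (s * (q - 1)) := hc
    _ ≤ _ := h4

/-- the lower bound for `c(F)` with parameters `α`, `y` -/
theorem lower {q : ℕ} (hq : 2 ≤ q) {α y : ℝ} (hα : 0 < α) (hy : 0 < y)
    (hm : 0 < mm q α y) {n : ℕ} (F : SimpleGraph (Fin n)) (hF : ¬ F.Colorable q)
    {c' : ℝ} (hc' : c' < mm q α y / (α ^ 2 * (1 - 1 / q))) :
    ∃ Δ₀ : ℕ, ∀ Δ : ℕ, Δ₀ ≤ Δ → ∃ (V : Type) (_ : Fintype V) (G : SimpleGraph V)
      (_ : DecidableRel G.Adj), F.Free G ∧ G.maxDegree = Δ ∧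
        ∀ r : ℕ, G.Colorable r → c' * (Δ / Real.log Δ) < r := by
  have hq' : (2 : ℝ) ≤ q := by exact_mod_cast hq
  have hq1 : (0 : ℝ) < 1 - 1 / q := by
    have : (1 : ℝ) / q ≤ 1 / 2 := one_div_le_one_div_of_le two_pos hq'
    linarith
  set g : ℝ := mm q α y / (α ^ 2 * (1 - 1 / q)) with hg
  have hgpos : 0 < g := by positivity
  -- a positive `c₁` between `c'` and `g`
  set c₁ : ℝ := max c' (g / 2) with hc₁
  have hc₁pos : 0 < c₁ := lt_of_lt_of_le (half_pos hgpos) (le_max_right _ _)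
  have hc₁g : c₁ < g := max_lt hc' (half_lt_self hgpos)
  set δ : ℝ := g / c₁ - 1 with hδ
  have hδpos : 0 < δ := by
    rw [hδ, sub_pos, lt_div_iff₀ hc₁pos, one_mul]
    exact hc₁g
  have hcc : (1 + δ) * (α ^ 2 * (1 - 1 / q) / mm q α y) = 1 / c₁ := by
    have e1 : α ^ 2 * (1 - 1 / q) / mm q α y = 1 / g := by rw [hg, one_div_div]
    have e2 : 1 + δ = g / c₁ := by rw [hδ]; ring
    rw [e1, e2]
    field_simp
  have hgood := good_of_mm hq hα hy hm hδpos n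
  rw [hcc] at hgood
  obtain ⟨Δ₀, hΔ₀⟩ := Pool.Agent.H278.CF.s_final q hq (1 / c₁) c₁ (by positivity) hc₁pos
    (by rw [one_div_mul_cancel hc₁pos.ne']) n F hF hgood
  refine ⟨Δ₀, fun Δ hΔ => ?_⟩
  obtain ⟨V, i1, G, i2, h1, h2, h3⟩ := hΔ₀ Δ hΔ
  refine ⟨V, i1, G, i2, h1, h2, fun r hr => lt_of_le_of_lt ?_ (h3 r hr)⟩
  have : (0 : ℝ) ≤ Δ / Real.log Δ := by
    have : 0 ≤ Real.log Δ := Real.log_natCast_nonneg _
    positivity
  exact mul_le_mul_of_nonneg_right (le_max_left _ _) this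

end Pool.Agent.H217.CF
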