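import Pool.Agent.H217.CF.Defs

/-!
# Statements of the lemmas, with paper proofs (project CF of helper217, MP_349e33_co)

Each `S_x` is a `Prop`; write `theorem s_x : S_x`.
-/

set_option autoImplicit false

namespace Pool.Agent.H217.CF

open Finset

/-- LOCAL. Blocks `e j : X → V` (`j ∈ Js`) with `part : X → Fin q`. If every nonempty set `U` of at
most `f` vertices has `∑_{j ∈ Js} (m_j(U) - 1) < |U|` with `m_j(U)` the number of `x` with
`e j x ∈ U` (natural subtraction), then for every `U` with `|U| ≤ f` there is a colouring `col`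
with `q` colours such that two positions in different parts of one block, both occupied by
vertices of `U`, carry different colours.

Paper proof. Taking `U = {v}` in the hypothesis: every block hits each vertex `v` at most once
(if `f ≥ 1`; if `f = 0` then `U = ∅` and there is nothing to prove). Induct (strongly) on `|U|`.
Call `j ∈ Js` active if `m_j(U) ≥ 2`. If no `j` is active, every `col` works (a constraint with
`x ≠ x'` gives `m_j(U) ≥ 2`). Otherwise call `v ∈ U` shared if at least two active blocks hit it.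
CLAIM: some active block hits at most one shared vertex. If not, let `U'` be the set of the shared
vertices; it is nonempty, `U' ⊆ U`, and every active `j` has `m_j(U') ≥ 2`, so
`m_j(U') - 1 ≥ m_j(U') / 2`; and `∑_{j active} m_j(U') = ∑_{v ∈ U'} #{(j, x) : j active, e j x = v}
≥ 2 |U'|`. So `∑ (m_j(U') - 1) ≥ |U'|`, contradiction to the hypothesis for `U'`.
Let `j` be such an active block, `P` the set of the vertices of `U` hit by `j` and not shared; `P` is
nonempty. By induction there is `col₁` for `U \ P`. If `j` hits a shared vertex `v₀ = e j x₀` (unique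
`x₀`), let `σ = Equiv.swap (part x₀) (col₁ v₀)`, else `σ = 1`. Put `col v = σ (part x)` for
`v = e j x ∈ P`, and `col = col₁` elsewhere. A constraint `(j', x, x')`: if `j' ≠ j` (it is active)
then both vertices are not in `P` (a vertex of `P` is hit by `j` and by no other active block), use
`col₁`. If `j' = j` then both vertices have `col = σ ∘ part` (also `v₀`), and `σ` is injective. -/
def S_local : Prop :=
  ∀ (J V X : Type) [Fintype J] [DecidableEq J] [Fintype V] [DecidableEq V] [Fintype X]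
    [DecidableEq X] (q : ℕ) (_ : 0 < q) (part : X → Fin q) (Js : Finset J) (e : J → X → V) (f : ℕ),
    (∀ U : Finset V, U.Nonempty → U.card ≤ f →
      ∑ j ∈ Js, ((univ.filter (fun x => e j x ∈ U)).card - 1) < U.card) →
    ∀ U : Finset V, U.card ≤ f →
      ∃ col : V → Fin q, ∀ j ∈ Js, ∀ x x' : X, e j x ∈ U → e j x' ∈ U →
        part x ≠ part x' → col (e j x) ≠ col (e j x')

/-- SURJ. Words of length `s` over a finite alphabet `ι` with nonnegative weights `p`, in which all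
letters of `A` occur: weighted number at most
`(s! / z ^ s) ∏_{i ∈ A} (exp (p i z) - 1) ∏_{i ∉ A} exp (p i z)`.

Paper proof. Put `K n = ∑_{ψ : Fin n → ι, A ⊆ range ψ} ∏ p (ψ x) ≥ 0`. Since
`1[A ⊆ range ψ] = ∏_{a ∈ A} (1 - 1[a ∉ range ψ]) = ∑_{I ⊆ A} (-1)^{|I|} 1[range ψ ∩ I = ∅]` we get
`K n = ∑_{I ⊆ A} (-1)^{|I|} (∑_{i ∉ I} p i) ^ n` (`Finset.sum_pow'`/`Fintype.piFinset` over the
alphabet `univ \ I`). Multiplying by `z ^ n / n!` and summing over `n` (`Real.exp` series, finite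
linear combination): `∑_n K n z ^ n / n! = ∑_{I ⊆ A} (-1)^{|I|} exp (z ∑_{i ∉ I} p i)
= ∏_{i ∈ A} (exp (p i z) - 1) ∏_{i ∉ A} exp (p i z)` (`Finset.prod_sub`/`prod_add`). All terms of
the series are nonnegative, so each one is at most the sum (`le_hasSum`). -/
def S_surj : Prop :=
  ∀ (ι : Type) [Fintype ι] [DecidableEq ι] (p : ι → ℝ) (_ : ∀ i, 0 ≤ p i) (A : Finset ι) (s : ℕ)
    (z : ℝ) (_ : 0 < z),
    (∑ ψ : Fin s → ι, if (∀ a ∈ A, ∃ x, ψ x = a) then ∏ x, p (ψ x) else 0) ≤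
      ((s.factorial : ℝ) / z ^ s) * ∏ i, (if i ∈ A then Real.exp (p i * z) - 1
        else Real.exp (p i * z))

/-- SURJ2: the case of SURJ in which only the letters `none` and `some a`, `a ∈ A`, are allowed:
apply SURJ to the weights which are `0` at the letters `some a`, `a ∉ A`. -/
def S_surj2 : Prop :=
  ∀ (k : ℕ) (p : Option (Fin k) → ℝ) (_ : ∀ o, 0 ≤ p o) (A : Finset (Fin k)) (s : ℕ)
    (z : ℝ) (_ : 0 < z),
    (∑ ψ : Fin s → Option (Fin k), if ((∀ a : Fin k, a ∈ A ↔ ∃ x, ψ x = some a))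
      then ∏ x, p (ψ x) else 0) ≤
      ((s.factorial : ℝ) / z ^ s) * Real.exp (p none * z) *
        ∏ a ∈ A, (Real.exp (p (some a) * z) - 1)

/-- WBOUND. `W ≤ (s! / z ^ s) ^ q * exp (q p(none) z) * ∏_a (1 + q (exp (p a z) - 1))`.

Paper proof. A proper `ψ` determines `τ : Fin k → Option (Fin q)`, `τ a = some j` if the colour
`some a` occurs in the part `j` (unique) and `τ a = none` if it does not occur. So
`W = ∑_τ ∑_{ψ with this τ} ∏ p`, and for fixed `τ` the sum over `ψ` is at most (equal to) the product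
over the parts `j` of `∑_{ψ_j : Fin s → Option (Fin k), colours used = A_j} ∏ p (ψ_j x)` with
`A_j = {a : τ a = some j}` (`Finset.prod_univ_sum`, currying `Fin q × Fin s`). By SURJ2 this is at most
`∏_j (s! / z^s) exp (p none z) ∏_{a ∈ A_j} (exp (p a z) - 1)`, and
`∏_j ∏_{a ∈ A_j} w a = ∏_a (match τ a with | none => 1 | some _ => w a)`. Finally
`∑_τ ∏_a (…) = ∏_a (1 + q w a)` (`Finset.prod_univ_sum`, `Fintype.sum_option`). -/
def S_wbound : Prop :=
  ∀ (k q s : ℕ) (p : Option (Fin k) → ℝ) (_ : ∀ o, 0 ≤ p o) (z : ℝ) (_ : 0 < z),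
    W k q s p ≤ ((s.factorial : ℝ) / z ^ s) ^ q * Real.exp (q * p none * z) *
      ∏ a : Fin k, (1 + q * (Real.exp (p (some a) * z) - 1))

/-- JENSEN. Paper proof: with `y₀ = z / k`, `F₀ = 1 + q (exp y₀ - 1) > 0`, `c = q exp y₀ / F₀`, so that
`c - 1 = (q - 1) / F₀ ≥ 0`: for all `y`, with `t = y - y₀`,
`1 + q (exp y - 1) = F₀ (c exp t - (c - 1)) ≤ F₀ exp (c t)`, as `exp t ≤ (1/c) exp (c t) + (c-1)/c`
(convexity of `exp`). Multiply over `a` with `y = p a z`: the exponent is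
`c (z ∑ p a - k y₀) ≤ 0`. (For `q = 0` trivial; factors are nonnegative.) -/
def S_jensen : Prop :=
  ∀ (k q : ℕ) (_ : 0 < k) (p : Fin k → ℝ) (_ : ∀ a, 0 ≤ p a) (_ : ∑ a, p a ≤ 1) (z : ℝ) (_ : 0 < z),
    ∏ a : Fin k, (1 + q * (Real.exp (p a * z) - 1)) ≤ (1 + q * (Real.exp (z / k) - 1)) ^ k

open Classical in
/-- COUNT. Group the maps `g` by `ψ = φ ∘ g`: there are `∏_x #{v | φ v = ψ x}` maps `g` with
`φ ∘ g = ψ` (`Fintype.card_pi`/`piFinset`). -/
def S_count : Prop :=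
  ∀ (k q s N : ℕ) (_ : 0 < N) (φ : Fin N → Option (Fin k)),
    ((univ.filter (fun g : X q s → Fin N => Proper (fun x => φ (g x)))).card : ℝ) =
      (N : ℝ) ^ (q * s) * W k q s (fun o => ((univ.filter (fun v => φ v = o)).card : ℝ) / N)

/-- BAD. The expected value of `∑_{U bad} T e U` is at most `f exp (C M / N)`, `C` independent of
`N` and `M`.

Paper proof. Let `l = q s`. If `U` is bad, `|U| = u`, then `T ≤ 2 ^ T` and `T ≥ u` give
`T ≤ 2 ^ T N ^ (T - u)`, so `T ≤ (2 N) ^ T / N ^ u`. Hence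
`∑_e ∑_{U bad} T ≤ ∑_{u=1}^f ∑_{|U| = u} N ^ {-u} ∑_e (2 N) ^ {T e U}`, and the number of the `U` with
`|U| = u` is at most `N ^ u` (`Nat.choose_le_pow`). Moreover
`∑_e (2 N) ^ {T e U} = (∑_g (2 N) ^ {hits g U - 1}) ^ M` (`Finset.prod_univ_sum`). For one `g`,
`(2 N) ^ {h - 1} ≤ 1 + ∑_{x ≠ x'} 1[g x ∈ U] 1[g x' ∈ U] (2 N) ^ {h - 1}` (the sum is empty or the pair
exists if `h ≥ 2`), and for a fixed pair `x ≠ x'`, with `w v = 2 N` for `v ∈ U` and `w v = 1` otherwise,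
`1[g x ∈ U] 1[g x' ∈ U] (2 N) ^ {h - 1} ≤ 2 N ∏_{x'' ≠ x, x'} w (g x'') 1[g x ∈ U] 1[g x' ∈ U]`, whose
sum over `g` is at most `2 N u² (∑_v w v) ^ {l - 2} ≤ 2 N u² (N (1 + 2 u)) ^ {l-2}`
`≤ N ^ l (1 / N) 2 u² (1 + 2 u) ^ l`.
So `∑_g (2N)^{h-1} ≤ N ^ l (1 + C / N)`, `C = 2 l² f² (1 + 2 f) ^ l`, and `(1 + C/N)^M ≤ exp (C M / N)`.
(Any other `C` depending on `q, s, f` only is fine.) -/
def S_bad : Prop :=
  ∀ q s f : ℕ, ∃ C : ℝ, 0 ≤ C ∧ ∀ N M : ℕ, 0 < N →
    ∑ e : Fin M → X q s → Fin N, ∑ U ∈ bad f e, (T e U : ℝ) ≤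
      f * Real.exp (C * (M / N)) * (N : ℝ) ^ (q * s * M)

/-- DEG. The expected number of vertices `v` with `dg e v > D` is at most
`N exp (- λ D) exp ((exp λ - 1) M q s / N)`.

Paper proof. `1[dg > D] ≤ exp (λ (dg - D))` for `λ ≥ 0`, and
`∑_e exp (λ dg e v) = ∏_j ∏_x ∑_{u : Fin N} exp (λ 1[u = v]) = (N - 1 + exp λ) ^ {q s M}
= N ^ {q s M} (1 + (exp λ - 1) / N) ^ {q s M} ≤ N ^ {q s M} exp ((exp λ - 1) q s M / N)`. -/
def S_deg : Prop :=
  ∀ (q s N M D : ℕ) (_ : 0 < N) (lam : ℝ) (_ : 0 ≤ lam),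
    ∑ e : Fin M → X q s → Fin N, ((univ.filter (fun v => D < dg e v)).card : ℝ) ≤
      N * Real.exp (-(lam * D)) * Real.exp ((Real.exp lam - 1) * (M * (q * s) / N)) *
        (N : ℝ) ^ (q * s * M)

open Classical in
/-- EVENT. If every `φ` with at most `η N` jokers has at most `ω N ^ (q s)` maps `g` with
`Proper (φ ∘ g)`, then the number of the `e` for which there are such a `φ` and a set `R` of at most
`C` blocks with `Proper (φ ∘ e j)` for all `j ∉ R` is at most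
`(k + 1) ^ N (M + 1) ^ C ω ^ (M - C) N ^ (q s M)`.

Paper proof. Union bound: at most `(k + 1) ^ N` maps `φ`; at most `(M + 1) ^ C` sets `R`
(`∑_{i ≤ C} choose M i ≤ (M + 1) ^ C`, or: every such `R` is the range of a map
`Fin C → Option (Fin M)`), and for given `φ`, `R` there are at most
`∏_j (if j ∈ R then N ^ (q s) else ω N ^ (q s)) ≤ ω ^ (M - C) N ^ (q s M)` maps `e` (`0 ≤ ω ≤ 1`). -/
def S_event : Prop :=
  ∀ (k q s N M C : ℕ) (η ω : ℝ) (_ : 0 ≤ ω) (_ : ω ≤ 1),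
    (∀ φ : Fin N → Option (Fin k), ((univ.filter (fun v => φ v = none)).card : ℝ) ≤ η * N →
      ((univ.filter (fun g : X q s → Fin N => Proper (fun x => φ (g x)))).card : ℝ) ≤
        ω * (N : ℝ) ^ (q * s)) →
    ((univ.filter (fun e : Fin M → X q s → Fin N => ∃ φ : Fin N → Option (Fin k),
      ((univ.filter (fun v => φ v = none)).card : ℝ) ≤ η * N ∧
      ∃ R : Finset (Fin M), R.card ≤ C ∧ ∀ j, j ∉ R → Proper (fun x => φ (e j x)))).card : ℝ) ≤
      ((k : ℝ) + 1) ^ N * ((M : ℝ) + 1) ^ C * ω ^ (M - C) * (N : ℝ) ^ (q * s * M)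

/-- ASYM. Choice of the parameters. Put `F = 1 + q (exp (y / q) - 1)`, `m = mm q α y > 0`.

Paper proof. Let `δ' ∈ (0, 1)` be small, `s = ⌊α k / q⌋`, `z = k y / q`, `η > 0` with `η y ≤ δ' m`
(fixed), `ω = (s!/z^s)^q exp (q η z) (1 + q (exp (z/k) - 1))^k`; here `z / k = y / q`, so the last
factor is `F ^ k`. As `k → ∞`: `(1/k) log ω = (q / k) (log s! - s log z) + η y + log F`
`→ α log α - α - α log y + η y + log F = - (m - η y) < 0` (Stirling: `log s! = s log s - s + o(k)`;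
e.g. `s! ≤ (s+1)^(s+1) / e^s` is enough, only an upper bound of `log ω` is needed: one may also
replace `ω` by any larger number, see the statement). So for large `k`: `ω ≤ exp (- (1 - 2 δ') m k)`.
Put `d = (1 + δ') q s log (k + 1) / ((1 - 2 δ') m k)`: then
`log (k+1) + (d / (q s)) log ω ≤ log (k+1) (1 - (1 + δ')) < 0`, and
`d ~ (1 + O(δ')) (α / m) log k → ∞`. `D = ⌈(1 + δ') d⌉`, `lam = log (1 + δ')`:
`(exp lam - 1) (d + 1) - lam D ≤ δ' (d + 1) - (1 + δ') log (1 + δ') d → - ∞` as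
`(1 + δ') log (1 + δ') > δ'`. And `D s (q - 1) ≤ (1 + O(δ')) (α / m) log k (α k / q) (q - 1)`
for large `k`. -/
def S_asym : Prop :=
  ∀ (q : ℕ) (_ : 2 ≤ q) (α y : ℝ) (_ : 0 < α) (_ : 0 < y) (_ : 0 < mm q α y) (δ : ℝ) (_ : 0 < δ),
    ∃ k₀ : ℕ, ∀ k : ℕ, k₀ ≤ k → ∃ (s D : ℕ) (z η ω d lam : ℝ), 0 < s ∧ 0 < z ∧ 0 < η ∧ 0 < lam ∧
      0 < d ∧ 0 < ω ∧ ω < 1 ∧
      ((s.factorial : ℝ) / z ^ s) ^ q * Real.exp (q * η * z) *
        (1 + q * (Real.exp (z / k) - 1)) ^ k ≤ ω ∧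
      Real.log (k + 1) + d / (q * s) * Real.log ω < 0 ∧
      Real.exp ((Real.exp lam - 1) * (d + 1) - lam * D) ≤ η / 8 ∧
      (D : ℝ) * (s * (q - 1)) ≤ (1 + δ) * (α ^ 2 * (1 - 1 / q) / mm q α y) * (k * Real.log k)

/-- NUM. Numbers: for instance `α = 0.72`, `y` near `1.0` (choose `y = 3 log E` with a rational `E`
near `1.4`, or any other convenient `y`; the maximum of the quotient is `0.5247…`, attained near
`α = 0.72`). -/
def S_num : Prop :=
  ∃ α y : ℝ, 0 < α ∧ 0 < y ∧ 0 < mm 3 α y ∧ 0.52 < mm 3 α y / (α ^ 2 * (1 - 1 / 3))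

/-- LOGQ. With `y = 2 q`: `1 + q (exp 2 - 1) ≤ q exp 2` for `q ≥ 1`, so
`mm q 2 (2 q) ≥ 2 (1 + log q) - log q - 2 = log q`. -/
def S_logq : Prop :=
  ∀ q : ℕ, 2 ≤ q → Real.log q ≤ mm q 2 (2 * q)

/-- the graphs for all large numbers of colours -/
def Good (q f k : ℕ) (c : ℝ) : Prop :=
  ∃ (N : ℕ) (G : SimpleGraph (Fin N)),
    (∀ v : Fin N, ((Set.toFinite (G.neighborSet v)).toFinset.card : ℝ) ≤ c * (k * Real.log k)) ∧
    ¬ G.Colorable k ∧
    ∀ n : ℕ, n ≤ f → ∀ F : SimpleGraph (Fin n), Nonempty (F →g G) → F.Colorable q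

/-- FINAL. From the number of colours `k` to the maximum degree `Δ`.

Paper proof. Given `c' < 1 / c`, choose `c'' > c` with `c' c'' < 1`... For `Δ` large let
`k = ⌊c' Δ / log Δ⌋` (large). `Good q n k c` gives `G` with degrees at most
`c k log k ≤ c c' (Δ / log Δ) log Δ ≤ Δ` (as `k ≤ Δ` for large `Δ`, `c c' ≤ 1`). Let `G'` be the disjoint
union of `G` and a star with `Δ` leaves (on `Fin N ⊕ Fin (Δ + 1)`): its maximum degree is exactly `Δ`,
it is not `k`-colourable, so every number of colours is `≥ k + 1 > c' Δ / log Δ`, and it contains no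
copy of `F`: a copy of `F` in `G'` would give a `q`-colouring of `F` (on the vertices which go to `G`
by the last property of `Good` applied to the induced subgraph of `F` (relabelled by `Fin n'`, `n' ≤ n`),
on the rest by two of the `q ≥ 2` colours). -/
def S_final : Prop :=
  ∀ (q : ℕ) (_ : 2 ≤ q) (c c' : ℝ) (_ : 0 < c) (_ : 0 < c') (_ : c * c' ≤ 1) (n : ℕ)
    (F : SimpleGraph (Fin n)) (_ : ¬ F.Colorable q),
    (∃ k₀ : ℕ, ∀ k : ℕ, k₀ ≤ k → Good q n k c) →
    ∃ Δ₀ : ℕ, ∀ Δ : ℕ, Δ₀ ≤ Δ → ∃ (V : Type) (_ : Fintype V) (G : SimpleGraph V)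
      (_ : DecidableRel G.Adj), F.Free G ∧ G.maxDegree = Δ ∧
        ∀ r : ℕ, G.Colorable r → c' * (Δ / Real.log Δ) < r

end Pool.Agent.H217.CF
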